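import Pool.Agent.H940Z.Orb.Main

set_option autoImplicit false

namespace Pool.Agent.Results.MP_4a1002_ag.NoOpenOrbit

open AlgebraicGeometry CategoryTheory Pool.Agent.H940Z.Orb

/-- Over every algebraically closed field `K` of characteristic zero there are a connected linear
algebraic group `G` and a commutative unipotent subgroup `H`, maximal among the commutative
subgroups of `G`, such that for every effective action of `G` by automorphisms of an irreducible
variety `X` over `K` no orbit of `H` is open (points of the variety are the closed points). -/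
theorem result (K : Type) [Field K] [IsAlgClosed K] [CharZero K] :
    ∃ (n : ℕ) (G H : Subgroup (GL (Fin n) K)),
      IsZClosed (G : Set (GL (Fin n) K)) ∧ IsZIrreducible (G : Set (GL (Fin n) K)) ∧ H ≤ G ∧
      (∀ a ∈ H, ∀ b ∈ H, a * b = b * a) ∧
      (∀ a ∈ H, IsNilpotent ((a : Matrix (Fin n) (Fin n) K) - 1)) ∧
      (∀ H' : Subgroup (GL (Fin n) K), H ≤ H' → H' ≤ G →
        (∀ a ∈ H', ∀ b ∈ H', a * b = b * a) → H' = H) ∧
      ∀ (X : Scheme.{0}) (f : X ⟶ Spec (CommRingCat.of K)) [AlgebraicGeometry.IsIntegral X]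
        [IsSeparated f] [LocallyOfFiniteType f] (act : G → (X ⟶ X)),
        (∀ g, act g ≫ f = f) → act 1 = 𝟙 X → (∀ g h, act (g * h) = act h ≫ act g) →
        (∀ g, (∀ x : X, IsClosed ({x} : Set X) → act g x = x) → g = 1) →
        ∀ x : X, IsClosed ({x} : Set X) → ¬ ∃ U : Set X, IsOpen U ∧
          {y | ∃ h : G, (h : GL (Fin n) K) ∈ H ∧ act h x = y} =
            U ∩ {y | IsClosed ({y} : Set X)} :=
  ⟨6, GG K, HH K, GG_closed, GG_irred, HH_le, HH_comm, fun a ha => GG_unip a (HH_le ha), HH_max,
    fun X f _ _ _ act h1 h2 h3 h4 x _ => no_open_orbit X f act h1 h2 h3 h4 x⟩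

end Pool.Agent.Results.MP_4a1002_ag.NoOpenOrbit
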